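import Pool.Agent.W211.AF.Stm

/-!
# Project AF (helper211): a priori bound by the Cauchy-Schwarz inequality
-/

set_option autoImplicit false

namespace Pool.Agent.W688.AF.Apr

open FreeGroup Pool.Agent.W211.AF

theorem tl_eq (π : Pat) (h : none ∉ π) : tl π = π.length := by
  rcases π with _ | ⟨x, π⟩
  · rfl
  · rw [List.mem_cons, not_or] at h
    simp only [tl, List.length_cons]
    rw [if_neg h.2, if_neg (fun h1 => h.1 h1.symm)]

theorem card_XL (M : ℕ) (π : Pat) :
    (XL M π).card ≤ 2 ^ (π.count none) * (tl π + 1) * (ball M).card := by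
  induction π with
  | nil => simp [XL, tl]
  | cons x π ih =>
    rcases x with _ | y
    · simp only [XL, List.count_cons_self]
      have h1 : tl (none :: π) = tl π := by
        simp only [tl]
        by_cases h : none ∈ π
        · rw [if_pos h]
        · rw [if_neg h, tl_eq π h]
          simp
      rw [h1]
      refine (Finset.card_union_le _ _).trans ?_
      refine (Nat.add_le_add Finset.card_image_le Finset.card_image_le).trans ?_
      have h4 : 2 ^ (List.count none π + 1) * (tl π + 1) * (ball M).card =
        2 * (2 ^ (List.count none π) * (tl π + 1) * (ball M).card) := by ring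
      omega
    · simp only [XL]
      rw [List.count_cons_of_ne (by simp)]
      refine (Finset.card_union_le _ _).trans ?_
      refine (Nat.add_le_add_right Finset.card_image_le _).trans ?_
      by_cases h : none ∈ π
      · rw [if_pos h, Finset.card_empty, add_zero]
        have h1 : tl (some y :: π) = tl π := by
          simp only [tl]
          rw [if_pos h]
        rw [h1]
        exact ih
      · rw [if_neg h]
        have h1 : tl (some y :: π) = tl π + 1 := by
          simp only [tl]
          rw [if_neg h, if_neg (by simp), tl_eq π h]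
        rw [h1]
        have h3 : List.count none π = 0 := List.count_eq_zero.2 h
        rw [h3, pow_zero, one_mul] at ih ⊢
        have h4 : (tl π + 1 + 1) * (ball M).card = (tl π + 1) * (ball M).card + (ball M).card := by
          ring
        omega

theorem sum_sq (K : G → ℝ) (hK : Summable fun g => K g ^ 2) (S : Finset (List Lt)) :
    ∑ l ∈ S, KL K l ^ 2 ≤ ∑' g, K g ^ 2 := by
  have h1 : ∑ l ∈ S, KL K l ^ 2 = ∑ l ∈ S.filter (fun l => reduce l = l), K (mk l) ^ 2 := by
    rw [Finset.sum_filter]
    apply Finset.sum_congr rfl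
    intro l _
    unfold KL
    split_ifs
    · rfl
    · norm_num
  have h2 : ∑ l ∈ S.filter (fun l => reduce l = l), K (mk l) ^ 2 =
      ∑ g ∈ (S.filter (fun l => reduce l = l)).image mk, K g ^ 2 := by
    rw [Finset.sum_image]
    intro l hl l' hl' h
    have e1 := (Finset.mem_filter.1 hl).2
    have e2 := (Finset.mem_filter.1 hl').2
    have e3 := reduce.sound h
    rw [e1, e2] at e3
    exact e3
  rw [h1, h2]
  exact hK.sum_le_tsum _ (fun g _ => sq_nonneg _)

theorem main : Pool.Agent.W211.AF.S_APR := by
  intro K hK0 hK M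
  have hW : 0 ≤ ∑' g, K g ^ 2 := tsum_nonneg fun g => sq_nonneg _
  refine ⟨Real.sqrt ((ball M).card * ∑' g, K g ^ 2), Real.sqrt_nonneg _, fun π => ?_⟩
  apply (le_abs_self _).trans
  apply abs_le_of_sq_le_sq
  · have h1 : P K M π ^ 2 ≤ (XL M π).card * ∑ l ∈ XL M π, KL K l ^ 2 :=
      sq_sum_le_card_mul_sum_sq
    have h2 := sum_sq K hK (XL M π)
    have h3 : ((XL M π).card : ℝ) ≤ 2 ^ (π.count none) * (tl π + 1) * (ball M).card := by
      exact_mod_cast card_XL M π
    have h4 : P K M π ^ 2 ≤ 2 ^ (π.count none) * (tl π + 1) * (ball M).card * ∑' g, K g ^ 2 :=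
      h1.trans (mul_le_mul h3 h2 (Finset.sum_nonneg fun l _ => sq_nonneg _) (by positivity))
    refine h4.trans ?_
    have h5 : ((3 / 2 : ℝ) ^ (π.count none) *
        (Real.sqrt ((ball M).card * ∑' g, K g ^ 2) * (tl π + 1))) ^ 2 =
        (9 / 4) ^ (π.count none) * (tl π + 1) ^ 2 * ((ball M).card * ∑' g, K g ^ 2) := by
      have e1 : Real.sqrt ((ball M).card * ∑' g, K g ^ 2) ^ 2 = (ball M).card * ∑' g, K g ^ 2 :=
        Real.sq_sqrt (by positivity)
      have e2 : ((3 / 2 : ℝ) ^ (π.count none)) ^ 2 = (9 / 4) ^ (π.count none) := by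
        rw [← pow_mul, mul_comm, pow_mul]
        norm_num
      rw [mul_pow, mul_pow, e1, e2]
      ring
    rw [h5, mul_assoc (2 ^ (π.count none) * ((tl π : ℝ) + 1))]
    apply mul_le_mul_of_nonneg_right _ (by positivity)
    apply mul_le_mul
    · exact pow_le_pow_left₀ (by norm_num) (by norm_num) _
    · have h6 : (0 : ℝ) ≤ tl π := Nat.cast_nonneg _
      nlinarith
    · positivity
    · positivity
  · positivity

end Pool.Agent.W688.AF.Apr
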